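import Pool.Agent.Lib.MP_be7f84_co.Main

/-!
Dimension-free stability for the Uniform Cover inequality: there is an absolute constant c such
that near-equality in the inequality forces S to be within c * rho * eps * |S| of a box.
Here m is the least number of members of G through a coordinate, sigma is the largest integer
such that for all distinct i, j at least sigma members of G contain i but not j, rho = m / sigma,
the projection onto g is the restriction of a point to the coordinates in g, and a box is a
product of finite sets of integers.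
-/

namespace Pool.Agent.Results.MP_be7f84_co.UniformCoverStability

theorem result : ∃ c : ℝ, 0 < c ∧ ∀ (d : ℕ), 2 ≤ d →
    ∀ (G : Finset (Finset (Fin d))) (m σ : ℕ),
      IsGreatest {k : ℕ | ∀ i : Fin d, k ≤ (G.filter (fun g => i ∈ g)).card} m →
      IsGreatest {k : ℕ | ∀ i j : Fin d, i ≠ j →
        k ≤ (G.filter (fun g => i ∈ g ∧ j ∉ g)).card} σ →
      0 < m → 0 < σ →
      ∀ (ε : ℝ), 0 ≤ ε → ∀ S : Finset (Fin d → ℤ),
        (1 - ε) * (∏ g ∈ G,
            ((S.image (fun (x : Fin d → ℤ) (i : {i : Fin d // i ∈ g}) => x i.1)).card : ℝ))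
              ^ ((1 : ℝ) / (m : ℝ)) ≤ (S.card : ℝ) →
        ∃ B : Fin d → Finset ℤ,
          ((symmDiff S (Fintype.piFinset B)).card : ℝ)
            ≤ c * ((m : ℝ) / (σ : ℝ)) * ε * (S.card : ℝ) := by
  refine ⟨12000000000000, by norm_num, ?_⟩
  intro d hd G m σ hm hσ _ hσ0 ε hε S h
  haveI : Nontrivial (Fin d) := Fin.nontrivial_iff_two_le.2 hd
  have hG : Pool.Agent.Lib.MP_be7f84_co.Cover G (m : ℝ) (σ : ℝ) :=
    ⟨fun i => by exact_mod_cast hm.1 i, fun i j hij => by exact_mod_cast hσ.1 i j hij,
      Nat.cast_nonneg _⟩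
  have hσm : σ ≤ m := hm.2 fun i => by
    obtain ⟨j, hj⟩ := exists_ne i
    refine (hσ.1 i j hj.symm).trans (Finset.card_le_card fun g hg => ?_)
    rw [Finset.mem_filter] at hg ⊢
    exact ⟨hg.1, hg.2.1⟩
  exact Pool.Agent.Lib.MP_be7f84_co.stability hG (by exact_mod_cast hσ0) (by exact_mod_cast hσm)
    hε S h

end Pool.Agent.Results.MP_be7f84_co.UniformCoverStability
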